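import Mathlib
import Pool.Agent.TH407.MZ.Defs
import Pool.Agent.TH55.MV.TailL4
set_option autoImplicit false

/-!
# The trivial `L⁴` bound
-/

namespace Pool.Agent.TH938.MZ

open MeasureTheory Set Complex
open scoped ENNReal NNReal Real ComplexConjugate
open Pool.Agent.TH407 Pool.Agent.TH407.MZ
open Pool.Agent.TH407.MV (dt)
open Pool.Agent.TH55.MV

theorem sq_meas : Measurable AR.sq := by
  unfold AR.sq
  fun_prop

theorem sq_polar (ρ α : ℝ) : AR.sq (ρ * Real.cos α, ρ * Real.sin α) = ρ ^ 2 := by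
  unfold AR.sq
  have := Real.sin_sq_add_cos_sq α
  simp only
  nlinarith [this]

/-- the integral of the kernel over a radial set -/
theorem rad_int {θ : ℝ} (hθ : θ ∈ Ioo (-π) π) (f : ℝ → ℝ≥0∞) (hf : Measurable f) :
    ∫⁻ y : ℝ × ℝ, f (AR.sq y) * (Sy y ^ 3 * rr (dt y θ) ^ 2) ≤
      AA ^ 4 * ∫⁻ ρ in Ioi (0 : ℝ), f (ρ ^ 2) * (ENNReal.ofReal ρ * rr ρ ^ 4) := by
  rw [← lintegral_comp_polarCoord_symm, polarCoord_target]
  have hf1 : Measurable fun p : ℝ × ℝ => f (p.1 ^ 2) := hf.comp (by fun_prop)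
  have h3 : Measurable fun p : ℝ × ℝ => ENNReal.ofReal p.1 :=
    ENNReal.measurable_ofReal.comp measurable_fst
  have h1 : Measurable fun p : ℝ × ℝ => rr p.1 := rr_meas.comp measurable_fst
  have hm : Measurable fun p : ℝ × ℝ => (f (p.1 ^ 2) * (ENNReal.ofReal p.1 * (AA * rr p.1) ^ 3)) *
      rr (p.1 * Real.cos (p.2 - θ)) ^ 2 := by
    have h2 : Measurable fun p : ℝ × ℝ => rr (p.1 * Real.cos (p.2 - θ)) :=
      rr_meas.comp (by fun_prop)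
    exact (hf1.mul (h3.mul ((h1.const_mul AA).pow_const 3))).mul (h2.pow_const 2)
  calc ∫⁻ p in Ioi (0 : ℝ) ×ˢ Ioo (-π) π, ENNReal.ofReal p.1 •
        (f (AR.sq (polarCoord.symm p)) *
          (Sy (polarCoord.symm p) ^ 3 * rr (dt (polarCoord.symm p) θ) ^ 2))
      ≤ ∫⁻ p in Ioi (0 : ℝ) ×ˢ Ioo (-π) π,
          (f (p.1 ^ 2) * (ENNReal.ofReal p.1 * (AA * rr p.1) ^ 3)) *
          rr (p.1 * Real.cos (p.2 - θ)) ^ 2 := by
        refine setLIntegral_mono' (measurableSet_Ioi.prod measurableSet_Ioo) fun p hp => ?_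
        rw [polarCoord_symm_apply, smul_eq_mul, dt_polar, sq_polar,
          ← Real.cos_neg (θ - p.2), neg_sub]
        have h5 : Sy (p.1 * Real.cos p.2, p.1 * Real.sin p.2) ≤ AA * rr p.1 := by
          unfold Sy
          simp only [dt_polar]
          exact ang_le (le_of_lt hp.1) hp.2
        calc _ = (f (p.1 ^ 2) * (ENNReal.ofReal p.1 *
              Sy (p.1 * Real.cos p.2, p.1 * Real.sin p.2) ^ 3)) *
              rr (p.1 * Real.cos (p.2 - θ)) ^ 2 := by ring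
          _ ≤ _ := by gcongr
    _ = ∫⁻ ρ in Ioi (0 : ℝ), ∫⁻ α in Ioo (-π) π,
          (f (ρ ^ 2) * (ENNReal.ofReal ρ * (AA * rr ρ) ^ 3)) *
          rr (ρ * Real.cos (α - θ)) ^ 2 := by
        rw [Measure.volume_eq_prod, ← Measure.prod_restrict, lintegral_prod _ hm.aemeasurable]
    _ ≤ ∫⁻ ρ in Ioi (0 : ℝ), (f (ρ ^ 2) * (ENNReal.ofReal ρ * (AA * rr ρ) ^ 3)) * (AA * rr ρ) := by
        refine setLIntegral_mono' measurableSet_Ioi fun ρ hρ => ?_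
        rw [lintegral_const_mul]
        · gcongr
          exact ang_le (le_of_lt hρ) hθ
        · exact (rr_meas.comp (by fun_prop)).pow_const 2
    _ = AA ^ 4 * ∫⁻ ρ in Ioi (0 : ℝ), f (ρ ^ 2) * (ENNReal.ofReal ρ * rr ρ ^ 4) := by
        rw [← lintegral_const_mul]
        · apply lintegral_congr
          intro ρ
          ring
        · exact (hf.comp (by fun_prop)).mul
            (ENNReal.measurable_ofReal.mul (rr_meas.pow_const 4))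

/-- the integral over a set -/
theorem set_int {θ : ℝ} (hθ : θ ∈ Ioo (-π) π) (T : Set ℝ) (hT : MeasurableSet T) :
    ∫⁻ y in {y : ℝ × ℝ | AR.sq y ∈ T}, Sy y ^ 3 * rr (dt y θ) ^ 2 ≤
      AA ^ 4 * ∫⁻ ρ in Ioi (0 : ℝ) ∩ {ρ : ℝ | ρ ^ 2 ∈ T}, ENNReal.ofReal ρ * rr ρ ^ 4 := by
  have h := rad_int hθ (T.indicator fun _ => 1) (measurable_const.indicator hT)
  have hS : MeasurableSet {y : ℝ × ℝ | AR.sq y ∈ T} := sq_meas hT
  have hS2 : MeasurableSet {ρ : ℝ | ρ ^ 2 ∈ T} := (measurable_id.pow_const 2) hT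
  have e1 : ∫⁻ y in {y : ℝ × ℝ | AR.sq y ∈ T}, Sy y ^ 3 * rr (dt y θ) ^ 2 =
      ∫⁻ y : ℝ × ℝ, T.indicator (fun _ => 1) (AR.sq y) * (Sy y ^ 3 * rr (dt y θ) ^ 2) := by
    rw [← lintegral_indicator hS]
    refine lintegral_congr fun y => ?_
    by_cases hy : AR.sq y ∈ T
    · rw [Set.indicator_of_mem (show y ∈ {y : ℝ × ℝ | AR.sq y ∈ T} from hy),
        Set.indicator_of_mem hy, one_mul]
    · rw [Set.indicator_of_notMem (show y ∉ {y : ℝ × ℝ | AR.sq y ∈ T} from hy),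
        Set.indicator_of_notMem hy, zero_mul]
  have e2 : ∫⁻ ρ in Ioi (0 : ℝ) ∩ {ρ : ℝ | ρ ^ 2 ∈ T}, ENNReal.ofReal ρ * rr ρ ^ 4 =
      ∫⁻ ρ in Ioi (0 : ℝ), T.indicator (fun _ => 1) (ρ ^ 2) * (ENNReal.ofReal ρ * rr ρ ^ 4) := by
    rw [← lintegral_indicator (measurableSet_Ioi.inter hS2), ← lintegral_indicator measurableSet_Ioi]
    refine lintegral_congr fun ρ => ?_
    by_cases h1 : ρ ∈ Ioi (0 : ℝ)
    · by_cases hy : ρ ^ 2 ∈ T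
      · rw [Set.indicator_of_mem (show ρ ∈ Ioi (0 : ℝ) ∩ {ρ : ℝ | ρ ^ 2 ∈ T} from ⟨h1, hy⟩),
          Set.indicator_of_mem h1, Set.indicator_of_mem hy, one_mul]
      · rw [Set.indicator_of_notMem
          (show ρ ∉ Ioi (0 : ℝ) ∩ {ρ : ℝ | ρ ^ 2 ∈ T} from fun h => hy h.2),
          Set.indicator_of_mem h1, Set.indicator_of_notMem hy, zero_mul]
    · rw [Set.indicator_of_notMem
        (show ρ ∉ Ioi (0 : ℝ) ∩ {ρ : ℝ | ρ ^ 2 ∈ T} from fun h => h1 h.1),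
        Set.indicator_of_notMem h1]
  rw [e1, e2]
  exact h

/-- the general bound on a measurable set -/
theorem core (S : Set (ℝ × ℝ)) (hS : MeasurableSet S) (K : ℝ≥0∞)
    (hK : ∀ θ ∈ Ioo (-π) π, ∫⁻ y in S, Sy y ^ 3 * rr (dt y θ) ^ 2 ≤ K)
    (k : ℝ → ℂ) (hk1 : ∀ w, ‖k w‖ ≤ 1) (hk2 : ∀ w, 2 < |w| → k w = 0)
    (g : ℝ → ℂ) (B : ℝ≥0) (hg : Measurable g) (hgB : ∀ θ, ‖g θ‖ₑ ≤ B) :
    ∫⁻ y in S, ‖∫ θ in Ioo (-π) π, k (dt y θ) * g θ‖ₑ ^ 4 ≤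
      9 ^ 4 * K * B ^ 2 * ∫⁻ θ in Ioo (-π) π, ‖g θ‖ₑ ^ 2 := by
  have hG : Measurable fun θ => ‖g θ‖ₑ := hg.enorm
  have hk : ∀ w, ‖k w‖ₑ ≤ 9 * rr w ^ 2 := by
    intro w
    rcases lt_or_ge 2 |w| with h | h
    · rw [hk2 w h]
      simp
    · unfold rr
      rw [← ENNReal.ofReal_pow (by positivity), show (9 : ℝ≥0∞) = ENNReal.ofReal 9 by norm_num,
        ← ENNReal.ofReal_mul (by norm_num), ← ofReal_norm]
      apply ENNReal.ofReal_le_ofReal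
      refine (hk1 w).trans ?_
      rw [div_pow, one_pow, mul_one_div, le_div_iff₀ (by positivity)]
      nlinarith [abs_nonneg w]
  have hJ : ∀ y : ℝ × ℝ, ‖∫ θ in Ioo (-π) π, k (dt y θ) * g θ‖ₑ ≤
      9 * ∫⁻ θ in Ioo (-π) π, rr (dt y θ) ^ 2 * ‖g θ‖ₑ := by
    intro y
    refine (enorm_integral_le_lintegral_enorm _).trans ?_
    have hmm : Measurable fun θ => rr (dt y θ) ^ 2 * ‖g θ‖ₑ :=
      ((rr_meas.comp (dt_meas y)).pow_const 2).mul hG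
    rw [← lintegral_const_mul _ hmm]
    refine lintegral_mono fun θ => ?_
    show ‖k (dt y θ) * g θ‖ₑ ≤ 9 * (rr (dt y θ) ^ 2 * ‖g θ‖ₑ)
    rw [enorm_mul, ← mul_assoc]
    gcongr
    exact hk _
  have hJ4 : ∀ y : ℝ × ℝ, ‖∫ θ in Ioo (-π) π, k (dt y θ) * g θ‖ₑ ^ 4 ≤
      9 ^ 4 * B ^ 2 * (Sy y ^ 3 * ∫⁻ θ in Ioo (-π) π, rr (dt y θ) ^ 2 * ‖g θ‖ₑ ^ 2) := by
    intro y
    have hrm : Measurable fun θ => rr (dt y θ) := rr_meas.comp (dt_meas y)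
    have h1 := cs (volume.restrict (Ioo (-π) π)) hrm hG
    have h2 : ∫⁻ θ in Ioo (-π) π, rr (dt y θ) ^ 2 * ‖g θ‖ₑ ≤ B * Sy y := by
      unfold Sy
      rw [← lintegral_const_mul _ (hrm.pow_const 2)]
      refine lintegral_mono fun θ => ?_
      show rr (dt y θ) ^ 2 * ‖g θ‖ₑ ≤ B * rr (dt y θ) ^ 2
      rw [mul_comm]
      gcongr
      exact hgB θ
    calc ‖∫ θ in Ioo (-π) π, k (dt y θ) * g θ‖ₑ ^ 4
        ≤ (9 * ∫⁻ θ in Ioo (-π) π, rr (dt y θ) ^ 2 * ‖g θ‖ₑ) ^ 4 := pow_le_pow_left' (hJ y) 4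
      _ = 9 ^ 4 * ((∫⁻ θ in Ioo (-π) π, rr (dt y θ) ^ 2 * ‖g θ‖ₑ) ^ 2 *
          (∫⁻ θ in Ioo (-π) π, rr (dt y θ) ^ 2 * ‖g θ‖ₑ) ^ 2) := by ring
      _ ≤ 9 ^ 4 * ((B * Sy y) ^ 2 * (Sy y * ∫⁻ θ in Ioo (-π) π, rr (dt y θ) ^ 2 * ‖g θ‖ₑ ^ 2)) :=
          mul_le_mul' le_rfl (mul_le_mul' (pow_le_pow_left' h2 2) h1)
      _ = _ := by ring
  have hm2 : Measurable fun p : (ℝ × ℝ) × ℝ => Sy p.1 ^ 3 * (rr (dt p.1 p.2) ^ 2 * ‖g p.2‖ₑ ^ 2) := by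
    have h1 : Measurable fun p : (ℝ × ℝ) × ℝ => Sy p.1 := Sy_meas.comp measurable_fst
    have h2 : Measurable fun p : (ℝ × ℝ) × ℝ => rr (dt p.1 p.2) := rr_meas.comp dt_cont.measurable
    have h3 : Measurable fun p : (ℝ × ℝ) × ℝ => ‖g p.2‖ₑ := hG.comp measurable_snd
    exact (h1.pow_const 3).mul ((h2.pow_const 2).mul (h3.pow_const 2))
  calc ∫⁻ y in S, ‖∫ θ in Ioo (-π) π, k (dt y θ) * g θ‖ₑ ^ 4
      ≤ ∫⁻ y in S, 9 ^ 4 * B ^ 2 *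
          (Sy y ^ 3 * ∫⁻ θ in Ioo (-π) π, rr (dt y θ) ^ 2 * ‖g θ‖ₑ ^ 2) :=
        lintegral_mono hJ4
    _ = ∫⁻ y in S, 9 ^ 4 * B ^ 2 *
          ∫⁻ θ in Ioo (-π) π, Sy y ^ 3 * (rr (dt y θ) ^ 2 * ‖g θ‖ₑ ^ 2) := by
        apply lintegral_congr
        intro y
        rw [lintegral_const_mul]
        exact ((rr_meas.comp (dt_meas y)).pow_const 2).mul (hG.pow_const 2)
    _ = 9 ^ 4 * B ^ 2 *
          ∫⁻ y in S, ∫⁻ θ in Ioo (-π) π, Sy y ^ 3 * (rr (dt y θ) ^ 2 * ‖g θ‖ₑ ^ 2) := by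
        rw [lintegral_const_mul]
        exact hm2.lintegral_prod_right'
    _ = 9 ^ 4 * B ^ 2 *
          ∫⁻ θ in Ioo (-π) π, ∫⁻ y in S, Sy y ^ 3 * (rr (dt y θ) ^ 2 * ‖g θ‖ₑ ^ 2) := by
        rw [lintegral_lintegral_swap]
        exact hm2.aemeasurable
    _ ≤ 9 ^ 4 * B ^ 2 * ∫⁻ θ in Ioo (-π) π, K * ‖g θ‖ₑ ^ 2 := by
        refine mul_le_mul' le_rfl (setLIntegral_mono' measurableSet_Ioo fun θ hθ => ?_)
        calc ∫⁻ y in S, Sy y ^ 3 * (rr (dt y θ) ^ 2 * ‖g θ‖ₑ ^ 2)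
            = (∫⁻ y in S, Sy y ^ 3 * rr (dt y θ) ^ 2) * ‖g θ‖ₑ ^ 2 := by
              rw [← lintegral_mul_const]
              · apply lintegral_congr
                intro y
                ring
              · exact (Sy_meas.pow_const 3).mul ((rr_meas.comp (dt_meas' θ)).pow_const 2)
          _ ≤ K * ‖g θ‖ₑ ^ 2 := by
              gcongr
              exact hK θ hθ
    _ = 9 ^ 4 * K * B ^ 2 * ∫⁻ θ in Ioo (-π) π, ‖g θ‖ₑ ^ 2 := by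
        rw [lintegral_const_mul _ (hG.pow_const 2)]
        ring

/-- the radial integral over a shell -/
theorem shell_int (j : ℕ) :
    ∫⁻ ρ in Ioi (0 : ℝ) ∩ {ρ : ℝ | ρ ^ 2 ∈ {s : ℝ | 4 ^ j ≤ 4 * s ∧ 4 * s < 4 ^ (j + 1)}},
      ENNReal.ofReal ρ * rr ρ ^ 4 ≤ 8 * ENNReal.ofReal ((4 ^ j)⁻¹) := by
  have h2 : (0 : ℝ) < 2 ^ j := by positivity
  have e4 : (4 : ℝ) ^ j = 2 ^ j * 2 ^ j := by
    rw [← mul_pow]
    norm_num
  have hsub : Ioi (0 : ℝ) ∩ {ρ : ℝ | ρ ^ 2 ∈ {s : ℝ | 4 ^ j ≤ 4 * s ∧ 4 * s < 4 ^ (j + 1)}} ⊆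
      Ico ((2 : ℝ) ^ j / 2) (2 ^ j) := by
    rintro ρ ⟨h0, h1, h3⟩
    have h0' : (0 : ℝ) < ρ := h0
    rw [pow_succ (4 : ℝ) j, e4] at h3
    rw [e4] at h1
    constructor
    · nlinarith
    · nlinarith
  calc _ ≤ ∫⁻ ρ in Ico ((2 : ℝ) ^ j / 2) (2 ^ j), ENNReal.ofReal ρ * rr ρ ^ 4 :=
        lintegral_mono_set hsub
    _ ≤ ∫⁻ _ρ in Ico ((2 : ℝ) ^ j / 2) (2 ^ j), ENNReal.ofReal (8 / (2 ^ j) ^ 3) := by
        refine setLIntegral_mono' measurableSet_Ico fun ρ hρ => ?_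
        have hρ1 : 2 ^ j / 2 ≤ ρ := hρ.1
        have hρ0 : 0 < ρ := lt_of_lt_of_le (by positivity) hρ1
        unfold rr
        rw [← ENNReal.ofReal_pow (by positivity), ← ENNReal.ofReal_mul hρ0.le]
        apply ENNReal.ofReal_le_ofReal
        rw [abs_of_pos hρ0, div_pow, one_pow, mul_one_div, div_le_div_iff₀ (by positivity)
          (by positivity)]
        have h5 : (2 ^ j) ^ 3 ≤ (2 * ρ) ^ 3 := pow_le_pow_left₀ h2.le (by linarith) 3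
        have h6 : ρ ^ 4 ≤ (1 + ρ) ^ 4 := pow_le_pow_left₀ hρ0.le (by linarith) 4
        calc ρ * (2 ^ j) ^ 3 ≤ ρ * (2 * ρ) ^ 3 := mul_le_mul_of_nonneg_left h5 hρ0.le
          _ = 8 * ρ ^ 4 := by ring
          _ ≤ 8 * (1 + ρ) ^ 4 := by linarith
    _ = ENNReal.ofReal (8 / (2 ^ j) ^ 3) * ENNReal.ofReal (2 ^ j - 2 ^ j / 2) := by
        rw [setLIntegral_const, Real.volume_Ico]
    _ ≤ 8 * ENNReal.ofReal ((4 ^ j)⁻¹) := by
        rw [show (8 : ℝ≥0∞) = ENNReal.ofReal 8 by norm_num, ← ENNReal.ofReal_mul (by positivity),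
          ← ENNReal.ofReal_mul (by norm_num)]
        apply ENNReal.ofReal_le_ofReal
        rw [e4]
        have e : (8 : ℝ) / (2 ^ j) ^ 3 * (2 ^ j - 2 ^ j / 2) = 4 * (2 ^ j * 2 ^ j)⁻¹ := by
          field_simp
          ring
        rw [e]
        have : 0 ≤ ((2 : ℝ) ^ j * 2 ^ j)⁻¹ := by positivity
        linarith

end Pool.Agent.TH938.MZ

namespace Pool.Agent.TH407.MZ

open MeasureTheory Set Complex
open scoped ENNReal NNReal Real ComplexConjugate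
open Pool.Agent.TH938.MZ Pool.Agent.TH55.MV

theorem trivZ : TrivZ := by
  set K0 : ℝ≥0∞ := AA ^ 4 * ∫⁻ ρ in Ioi (0 : ℝ), ENNReal.ofReal ρ * rr ρ ^ 4 with hK0
  have hK0t : K0 ≠ ∞ := (ENNReal.mul_lt_top (ENNReal.pow_lt_top AA_lt) K2_lt).ne
  have hAt : AA ^ 4 ≠ ∞ := (ENNReal.pow_lt_top AA_lt).ne
  set K : ℝ≥0∞ := 9 ^ 4 * (K0 + AA ^ 4 * 8) with hK
  have hKt : K ≠ ∞ := by
    rw [hK]
    refine ENNReal.mul_ne_top (by norm_num) (ENNReal.add_ne_top.2 ⟨hK0t, ?_⟩)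
    exact ENNReal.mul_ne_top hAt (by norm_num)
  refine ⟨K.toNNReal, ?_⟩
  rw [ENNReal.coe_toNNReal hKt]
  intro k hk hk1 hk2 g B hg hgB
  constructor
  · have hT : MeasurableSet {s : ℝ | 4 * s < 1} := measurableSet_lt (by fun_prop) measurable_const
    have h := core {y : ℝ × ℝ | AR.sq y ∈ {s : ℝ | 4 * s < 1}} (sq_meas hT) K0 (by
      intro θ hθ
      refine (set_int hθ _ hT).trans ?_
      rw [hK0]
      gcongr
      exact inter_subset_left) k hk1 hk2 g B hg hgB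
    refine h.trans ?_
    rw [hK]
    gcongr
    exact le_self_add
  · intro j
    have hT1 : MeasurableSet {s : ℝ | (4 : ℝ) ^ j ≤ 4 * s} :=
      measurableSet_le measurable_const (by fun_prop)
    have hT2 : MeasurableSet {s : ℝ | 4 * s < (4 : ℝ) ^ (j + 1)} :=
      measurableSet_lt (by fun_prop) measurable_const
    have hT : MeasurableSet {s : ℝ | 4 ^ j ≤ 4 * s ∧ 4 * s < 4 ^ (j + 1)} := hT1.inter hT2
    have h := core {y : ℝ × ℝ | AR.sq y ∈ {s : ℝ | 4 ^ j ≤ 4 * s ∧ 4 * s < 4 ^ (j + 1)}}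
      (sq_meas hT) (AA ^ 4 * (8 * ENNReal.ofReal ((4 ^ j)⁻¹))) (by
      intro θ hθ
      refine (set_int hθ _ hT).trans ?_
      gcongr
      exact shell_int j) k hk1 hk2 g B hg hgB
    refine h.trans ?_
    rw [hK]
    calc 9 ^ 4 * (AA ^ 4 * (8 * ENNReal.ofReal ((4 ^ j)⁻¹))) * B ^ 2 *
          ∫⁻ θ in Ioo (-π) π, ‖g θ‖ₑ ^ 2
        = 9 ^ 4 * (AA ^ 4 * 8) * ENNReal.ofReal ((4 ^ j)⁻¹) * B ^ 2 *
          ∫⁻ θ in Ioo (-π) π, ‖g θ‖ₑ ^ 2 := by ring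
      _ ≤ _ := by
        gcongr
        exact le_add_self

end Pool.Agent.TH407.MZ
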